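import Pool.Agent.H22.FOT.Defs

open MeasureTheory unitInterval Set Filter Topology ProbabilityTheory

namespace Pool.FOT

namespace Ev

section
variable {V Ω : Type} [Fintype V] [MeasurableSpace Ω] (μ : Measure Ω) [IsProbabilityMeasure μ]

lemma mp_eval (u : V) :
    MeasurePreserving (fun x : V → Ω => x u) (Measure.pi fun _ => μ) μ := by
  classical
  exact measurePreserving_eval (fun _ : V => μ) u

lemma indep : iIndepFun (fun (v : V) (x : V → Ω) => x v) (Measure.pi fun _ : V => μ) :=
  iIndepFun_pi (μ := fun _ : V => μ) (X := fun _ ω => ω) fun _ => aemeasurable_id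

omit [Fintype V] in
lemma meas (v : V) : Measurable (fun x : V → Ω => x v) := measurable_pi_apply v

/-- Evaluation at two different vertices. -/
lemma mp2 (u v : V) (h : u ≠ v) :
    MeasurePreserving (fun x : V → Ω => (x u, x v)) (Measure.pi fun _ => μ) (μ.prod μ) := by
  refine ⟨(meas u).prodMk (meas v), ?_⟩
  have h1 := ((indep μ).indepFun h).map_prod_eq_prod_map_map (meas u).aemeasurable
    (meas v).aemeasurable
  rw [(mp_eval μ u).map_eq, (mp_eval μ v).map_eq] at h1
  exact h1

lemma mp3 (u v w : V) (huv : u ≠ v) (huw : u ≠ w) (hvw : v ≠ w) :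
    MeasurePreserving (fun x : V → Ω => (x u, (x v, x w))) (Measure.pi fun _ => μ)
      (μ.prod (μ.prod μ)) := by
  refine ⟨(meas u).prodMk ((meas v).prodMk (meas w)), ?_⟩
  have h1 := ((indep μ).indepFun_prodMk meas v w u huv.symm huw.symm).symm
  have h2 := h1.map_prod_eq_prod_map_map (meas u).aemeasurable
    ((meas v).prodMk (meas w)).aemeasurable
  rw [(mp_eval μ u).map_eq, (mp2 μ v w hvw).map_eq] at h2
  exact h2

lemma mp4 (u v w z : V) (huv : u ≠ v) (hwz : w ≠ z) (huw : u ≠ w) (huz : u ≠ z) (hvw : v ≠ w)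
    (hvz : v ≠ z) :
    MeasurePreserving (fun x : V → Ω => ((x u, x v), (x w, x z))) (Measure.pi fun _ => μ)
      ((μ.prod μ).prod (μ.prod μ)) := by
  refine ⟨((meas u).prodMk (meas v)).prodMk ((meas w).prodMk (meas z)), ?_⟩
  have h1 := (indep μ).indepFun_prodMk_prodMk meas u v w z huw huz hvw hvz
  have h2 := h1.map_prod_eq_prod_map_map ((meas u).prodMk (meas v)).aemeasurable
    ((meas w).prodMk (meas z)).aemeasurable
  rw [(mp2 μ u v huv).map_eq, (mp2 μ w z hwz).map_eq] at h2
  exact h2

end

end Ev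

theorem t_evp : EVPStmt := by
  intro V Ω _ _ μ _ u v h
  exact Ev.mp2 μ u v h

theorem t_evq : EVQStmt := by
  intro V Ω _ _ μ _ u v w z huv hwz huw huz hvw hvz
  exact Ev.mp4 μ u v w z huv hwz huw huz hvw hvz

theorem t_evt : EVTStmt := by
  intro V Ω _ _ μ _ u v w huv huw hvw
  exact Ev.mp3 μ u v w huv huw hvw

/-- One edge. -/
theorem t_sm1 (h : EVPStmt) : SM1Stmt := by
  intro V Ω _ _ μ _ A f hf hm hb hd hc
  obtain ⟨e, rfl⟩ := Finset.card_eq_one.1 hc
  induction e using Sym2.ind with
  | _ i j =>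
    have hij : i ≠ j := by
      have := hd _ (Finset.mem_singleton_self _)
      simpa using this
    have h1 := (h V Ω μ i j hij)
    unfold sDens
    simp only [Finset.prod_singleton, sVal_mk]
    have h2 := h1.map_eq
    rw [← h2, integral_map h1.measurable.aemeasurable]
    exact (h2 ▸ hm.aestronglyMeasurable)

end Pool.FOT
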