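import Pool.Agent.H22.FOT.Defs

open MeasureTheory unitInterval Set Filter Topology

namespace Pool.FOT

open Pool.Agent.H99.LowerTail

namespace Rgt

/-- The colour of a point: the interval of length `1 / r` containing it. -/
noncomputable def col (r : ℕ) (x : I) : ℕ := ⌈(r : ℝ) * x⌉₊ - 1

lemma col_lt {r : ℕ} (hr : 0 < r) (x : I) : col r x < r := by
  unfold col
  have h1 : ⌈(r : ℝ) * x⌉₊ ≤ r := by
    rw [Nat.ceil_le]
    have h2 : (x : ℝ) ≤ 1 := x.2.2
    have h3 : (0 : ℝ) ≤ r := Nat.cast_nonneg r
    nlinarith
  omega

lemma measurable_col (r : ℕ) : Measurable (col r) := by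
  unfold col
  have h1 : Measurable (fun x : I => ⌈(r : ℝ) * x⌉₊) :=
    Nat.measurable_ceil.comp (measurable_subtype_coe.const_mul _)
  exact (measurable_from_nat (f := fun n : ℕ => n - 1)).comp h1

/-- The set of points of colour less than `k`. -/
lemma col_lt_iff {r k : ℕ} (hr : 0 < r) (hk : 0 < k) (x : I) :
    col r x < k ↔ (x : ℝ) ≤ (k : ℝ) / r := by
  unfold col
  have hr' : (0 : ℝ) < r := Nat.cast_pos.2 hr
  have h1 : ⌈(r : ℝ) * x⌉₊ - 1 < k ↔ ⌈(r : ℝ) * x⌉₊ ≤ k := by omega
  rw [h1, Nat.ceil_le, le_div_iff₀ hr', mul_comm]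

lemma vol_lt {r k : ℕ} (hr : 0 < r) (hkr : k ≤ r) :
    (volume : Measure I).real {x : I | col r x < k} = (k : ℝ) / r := by
  rcases Nat.eq_zero_or_pos k with rfl | hk
  · simp
  have hr' : (0 : ℝ) < r := Nat.cast_pos.2 hr
  have hmem : (k : ℝ) / r ∈ Icc (0 : ℝ) 1 := by
    refine ⟨by positivity, ?_⟩
    rw [div_le_one hr']
    exact_mod_cast hkr
  have e : {x : I | col r x < k} = Iic (⟨(k : ℝ) / r, hmem⟩ : I) := by
    ext x
    rw [mem_ofPred_eq, col_lt_iff hr hk, mem_Iic, ← Subtype.coe_le_coe]
  rw [e, Measure.real, unitInterval.volume_Iic, ENNReal.toReal_ofReal hmem.1]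

lemma vol_eq {r i : ℕ} (hr : 0 < r) (hi : i < r) :
    (volume : Measure I).real {x : I | col r x = i} = 1 / r := by
  have hr' : (0 : ℝ) < r := Nat.cast_pos.2 hr
  have hm : ∀ k, MeasurableSet {x : I | col r x < k} := fun k =>
    measurable_col r (measurableSet_Iio (a := k))
  have hm2 : MeasurableSet {x : I | col r x = i} := measurable_col r (measurableSet_singleton i)
  have e : {x : I | col r x < i + 1} = {x : I | col r x < i} ∪ {x : I | col r x = i} := by
    ext x
    simp only [mem_ofPred_eq, mem_union]
    omega
  have hd : Disjoint {x : I | col r x < i} {x : I | col r x = i} := by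
    rw [Set.disjoint_left]
    intro x h1 h2
    simp only [mem_ofPred_eq] at h1 h2
    omega
  have h3 := measureReal_union (μ := (volume : Measure I)) hd hm2
  rw [← e, vol_lt hr hi, vol_lt hr hi.le] at h3
  push_cast at h3
  have : (volume : Measure I).real {x : I | col r x = i} = ((i : ℝ) + 1) / r - i / r := by
    linarith
  rw [this]
  field_simp
  ring

lemma measurableSet_same (r : ℕ) : MeasurableSet {z : I × I | col r z.1 = col r z.2} :=
  measurableSet_eq_fun ((measurable_col r).comp measurable_fst)
    ((measurable_col r).comp measurable_snd)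

/-- The multipartite graphon with `r` parts. -/
noncomputable def gr (r : ℕ) (p : ℝ) (hp : p ∈ Icc (0 : ℝ) 1) : Graphon where
  toFun x y := if col r x = col r y then 0 else p
  measurable' := Measurable.ite (measurableSet_same r) measurable_const measurable_const
  symm' x y := by
    by_cases h : col r x = col r y
    · rw [if_pos h, if_pos h.symm]
    · rw [if_neg h, if_neg (Ne.symm h)]
  nonneg' x y := by
    split_ifs
    · exact le_rfl
    · exact hp.1
  le_one' x y := by
    split_ifs
    · exact zero_le_one
    · exact hp.2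

lemma vol_same {r : ℕ} (hr : 0 < r) :
    (volume : Measure (I × I)).real {z : I × I | col r z.1 = col r z.2} = 1 / r := by
  have h1 : (volume : Measure (I × I)).real {z : I × I | col r z.1 = col r z.2} =
      ∫ z : I × I, {z : I × I | col r z.1 = col r z.2}.indicator (fun _ => (1 : ℝ)) z := by
    rw [integral_indicator (measurableSet_same r)]
    simp
  have hi : Integrable ({z : I × I | col r z.1 = col r z.2}.indicator (fun _ => (1 : ℝ)))
      ((volume : Measure I).prod volume) :=
    (integrable_const _).indicator (measurableSet_same r)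
  rw [h1]
  have hv : (volume : Measure (I × I)) = (volume : Measure I).prod volume := rfl
  rw [hv, integral_prod _ hi]
  have h2 : ∀ x : I, ∫ y : I, {z : I × I | col r z.1 = col r z.2}.indicator
      (fun _ => (1 : ℝ)) (x, y) = 1 / r := by
    intro x
    have e : (fun y : I => {z : I × I | col r z.1 = col r z.2}.indicator
      (fun _ => (1 : ℝ)) (x, y)) = {y : I | col r y = col r x}.indicator fun _ => (1 : ℝ) := by
      funext y
      by_cases h : col r x = col r y
      · rw [indicator_of_mem (show (x, y) ∈ {z : I × I | col r z.1 = col r z.2} from h),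
          indicator_of_mem (show y ∈ {y : I | col r y = col r x} from h.symm)]
      · rw [indicator_of_notMem (show (x, y) ∉ {z : I × I | col r z.1 = col r z.2} from h),
          indicator_of_notMem (show y ∉ {y : I | col r y = col r x} from fun h' => h h'.symm)]
    have hms : MeasurableSet {y : I | col r y = col r x} :=
      measurable_col r (measurableSet_singleton (col r x))
    rw [e, integral_indicator hms]
    have := vol_eq hr (col_lt hr x)
    simpa using this
  simp only [h2]
  simp

end Rgt

/-- The multipartite graphon. -/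
theorem t_rgt : RGTStmt := by
  intro V _ H r hr hc p q hq0 hqp hp1 hmin
  classical
  have hp0 : 0 < p := hq0.trans_le hqp
  have hp : p ∈ Icc (0 : ℝ) 1 := ⟨hp0.le, hp1.le⟩
  have hden : homDensity H (Rgt.gr r p hp) = 0 := by
    unfold homDensity
    have h0 : ∀ x : V → I, ∏ e ∈ H.edgeFinset, edgeVal (Rgt.gr r p hp) x e = 0 := by
      intro x
      by_contra hne
      refine hc ?_
      refine ⟨SimpleGraph.Coloring.mk (fun v => (⟨Rgt.col r (x v), Rgt.col_lt hr _⟩ : Fin r)) ?_⟩
      intro v w hvw he
      refine hne (Finset.prod_eq_zero (i := s(v, w)) ?_ ?_)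
      · rw [SimpleGraph.mem_edgeFinset]
        exact hvw
      · show (if Rgt.col r (x v) = Rgt.col r (x w) then (0 : ℝ) else p) = 0
        rw [if_pos]
        exact congrArg Fin.val he
    simp only [h0]
    simp
  have h1 := hmin (Rgt.gr r p hp) (by
    rw [hden]
    exact pow_nonneg hq0.le _)
  have h2 : cost p (Rgt.gr r p hp) = relEnt p 0 / r := by
    unfold cost
    have e : ∀ z : I × I, relEnt p (Rgt.gr r p hp z.1 z.2) =
        {z : I × I | Rgt.col r z.1 = Rgt.col r z.2}.indicator (fun _ => relEnt p 0) z := by
      intro z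
      show relEnt p (if Rgt.col r z.1 = Rgt.col r z.2 then 0 else p) = _
      by_cases h : Rgt.col r z.1 = Rgt.col r z.2
      · rw [if_pos h, indicator_of_mem (show z ∈ {z : I × I | Rgt.col r z.1 = Rgt.col r z.2}
          from h)]
      · rw [if_neg h, indicator_of_notMem (show z ∉ {z : I × I | Rgt.col r z.1 = Rgt.col r z.2}
          from h), relEnt_self hp0 hp1]
    simp only [e]
    rw [integral_indicator (Rgt.measurableSet_same r)]
    have := Rgt.vol_same hr
    simp only [integral_const, smul_eq_mul, measureReal_restrict_apply MeasurableSet.univ,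
      univ_inter, this]
    ring
  rw [h2] at h1
  exact h1

end Pool.FOT
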