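import Pool.Agent.H22.FOT.Defs

open MeasureTheory unitInterval Set Filter Topology

namespace Pool.FOT

open Pool.Agent.H99.LowerTail

namespace Str

open Classical in
/-- The product over the edges at `v` as a product over the neighbours. -/
lemma prod_star {V : Type} [Fintype V] (H : SimpleGraph V) (v : V) (g : Sym2 V → ℝ) :
    ∏ e ∈ (edges H).filter (fun e => v ∈ e), g e = ∏ w ∈ H.neighborFinset v, g s(v, w) := by
  symm
  refine Finset.prod_bij (fun w _ => s(v, w)) ?_ ?_ ?_ ?_
  · intro w hw
    rw [SimpleGraph.mem_neighborFinset] at hw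
    rw [Finset.mem_filter]
    refine ⟨?_, Sym2.mem_mk_left v w⟩
    unfold edges
    rw [SimpleGraph.mem_edgeFinset]
    exact hw
  · intro w1 _ w2 _ he
    exact Sym2.congr_right.1 he
  · intro e he
    rw [Finset.mem_filter] at he
    obtain ⟨he1, he2⟩ := he
    obtain ⟨w, rfl⟩ := Sym2.mem_iff_exists.1 he2
    refine ⟨w, ?_, rfl⟩
    rw [SimpleGraph.mem_neighborFinset]
    unfold edges at he1
    rw [SimpleGraph.mem_edgeFinset] at he1
    exact he1
  · intro w _
    rfl

end Str

/-- The integral of a star. -/
theorem t_str (hU : UPDStmt) : STRStmt := by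
  intro V _ _ H W B hB v
  classical
  have hmp := hU V I (volume : Measure I) v
  set F : (V → I) → ℝ := fun x => B.indicator (fun _ => (1 : ℝ)) (x v) *
    ∏ w ∈ H.neighborFinset v, W (x v) (x w) with hF
  have h0 : ∀ x : V → I, B.indicator (fun _ => (1 : ℝ)) (x v) *
        ∏ e ∈ (edges H).filter (fun e => v ∈ e), edgeVal W x e = F x := by
    intro x
    rw [hF]
    dsimp only
    have := Str.prod_star H v (fun e => edgeVal W x e)
    rw [show (∏ e ∈ (edges H).filter (fun e => v ∈ e), edgeVal W x e) =
      ∏ w ∈ H.neighborFinset v, edgeVal W x s(v, w) by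
        rw [← this]
        refine Finset.prod_congr ?_ fun _ _ => rfl
        ext e
        simp only [Finset.mem_filter]]
    rfl
  have hmeas1 : Measurable (fun x : V → I => B.indicator (fun _ => (1 : ℝ)) (x v)) :=
    (measurable_const.indicator hB).comp (measurable_pi_apply v)
  have hmeas : Measurable F := by
    refine hmeas1.mul (Finset.measurable_prod _ fun w _ => ?_)
    have h : Measurable (fun x : V → I => (x v, x w)) :=
      (measurable_pi_apply v).prodMk (measurable_pi_apply w)
    exact Measurable.comp (g := fun z : I × I => W z.1 z.2) W.measurable' h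
  have hbd : ∀ x, ‖F x‖ ≤ 1 := by
    intro x
    rw [Real.norm_eq_abs, abs_mul]
    have h1 : |B.indicator (fun _ => (1 : ℝ)) (x v)| ≤ 1 := by
      by_cases hx : x v ∈ B
      · rw [indicator_of_mem hx]; simp
      · rw [indicator_of_notMem hx]; simp
    have h2 : |∏ w ∈ H.neighborFinset v, W (x v) (x w)| ≤ 1 := by
      rw [abs_of_nonneg (Finset.prod_nonneg fun w _ => W.nonneg' _ _)]
      exact Finset.prod_le_one (fun w _ => W.nonneg' _ _) (fun w _ => W.le_one' _ _)
    calc _ ≤ (1 : ℝ) * 1 := mul_le_mul h1 h2 (abs_nonneg _) zero_le_one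
      _ = 1 := one_mul 1
  rw [integral_congr_ae (Filter.Eventually.of_forall h0)]
  have hvol : (volume : Measure (V → I)) = Measure.pi fun _ => (volume : Measure I) := rfl
  rw [hvol, ← hmp.map_eq, integral_map hmp.measurable.aemeasurable hmeas.aestronglyMeasurable]
  have hcomp : Measurable (fun z : (V → I) × I => F (Function.update z.1 v z.2)) :=
    hmeas.comp hmp.measurable
  have hint : Integrable (fun z : (V → I) × I => F (Function.update z.1 v z.2))
      ((Measure.pi fun _ => (volume : Measure I)).prod volume) :=
    Integrable.of_bound hcomp.aestronglyMeasurable 1 (Filter.Eventually.of_forall fun z => hbd _)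
  rw [integral_prod_symm _ hint, ← integral_indicator hB]
  refine integral_congr_ae (Filter.Eventually.of_forall fun t => ?_)
  dsimp only
  have h3 : ∀ x : V → I, F (Function.update x v t) =
      B.indicator (fun _ => (1 : ℝ)) t *
        ∏ w : V, (if H.Adj v w then W t (x w) else 1) := by
    intro x
    rw [hF]
    dsimp only
    rw [Function.update_self]
    congr 1
    rw [Finset.prod_ite, Finset.prod_const_one, mul_one]
    have : Finset.univ.filter (fun w => H.Adj v w) = H.neighborFinset v := by
      ext w
      simp
    rw [this]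
    refine Finset.prod_congr rfl fun w hw => ?_
    rw [SimpleGraph.mem_neighborFinset] at hw
    rw [Function.update_of_ne hw.ne']
  rw [integral_congr_ae (Filter.Eventually.of_forall h3), integral_const_mul]
  have h4 : ∫ x : V → I, ∏ w : V, (if H.Adj v w then W t (x w) else 1)
      ∂(Measure.pi fun _ => (volume : Measure I)) =
      ∏ w : V, ∫ s : I, (if H.Adj v w then W t s else 1) :=
    integral_fintype_prod_eq_prod (fun (w : V) (s : I) => if H.Adj v w then W t s else (1 : ℝ))
      (μ := fun _ : V => (volume : Measure I))
  rw [h4]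
  have h5 : ∀ w : V, ∫ s : I, (if H.Adj v w then W t s else 1) =
      if H.Adj v w then rowAv W t else 1 := by
    intro w
    split_ifs
    · rfl
    · simp
  simp only [h5]
  rw [Finset.prod_ite, Finset.prod_const_one, mul_one, Finset.prod_const]
  have h6 : (Finset.univ.filter (fun w => H.Adj v w)).card = dg H v := by
    unfold dg
    rw [← SimpleGraph.card_neighborFinset_eq_degree]
    congr 1
    ext w
    simp
  rw [h6]
  by_cases ht : t ∈ B
  · rw [indicator_of_mem ht, indicator_of_mem ht, one_mul]
  · rw [indicator_of_notMem ht, indicator_of_notMem ht, zero_mul]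

end Pool.FOT
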