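import Pool.Agent.H22.FOT.Defs

open MeasureTheory unitInterval Set Filter Topology

namespace Pool.FOT

open Pool.Agent.H99.LowerTail

namespace Twb

lemma sg_cases (x : I) : sg x = 1 ∨ sg x = -1 := by
  unfold sg
  split_ifs
  · exact Or.inl rfl
  · exact Or.inr rfl

lemma abs_sg (x : I) : |sg x| = 1 := by
  rcases sg_cases x with h | h <;> rw [h] <;> norm_num

lemma measurable_sg : Measurable sg := by
  unfold sg
  refine Measurable.ite ?_ measurable_const measurable_const
  exact measurableSet_lt measurable_subtype_coe measurable_const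

lemma integral_sg : ∫ x : I, sg x = 0 := by
  have hhalf : (1 / 2 : ℝ) ∈ Icc (0 : ℝ) 1 := by norm_num
  set h : I := ⟨1 / 2, hhalf⟩ with hh
  have hs : MeasurableSet (Iio h) := measurableSet_Iio
  have e : sg = fun x : I => (Iio h).indicator (fun _ => (2 : ℝ)) x - 1 := by
    funext x
    unfold sg
    by_cases hx : (x : ℝ) < 1 / 2
    · have : x ∈ Iio h := by
        rw [mem_Iio, ← Subtype.coe_lt_coe, hh]
        exact hx
      rw [if_pos hx, indicator_of_mem this]
      norm_num
    · have : x ∉ Iio h := by
        rw [mem_Iio, ← Subtype.coe_lt_coe, hh]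
        exact hx
      rw [if_neg hx, indicator_of_notMem this]
      norm_num
  rw [e, integral_sub ((integrable_const _).indicator hs) (integrable_const _),
    integral_indicator hs]
  simp only [integral_const, smul_eq_mul, Measure.real, hh]
  norm_num

/-- The value of `σ ⊗ σ` at an unordered pair. -/
noncomputable def sv {V : Type} (x : V → I) : Sym2 V → ℝ :=
  Sym2.lift ⟨fun i j => sg (x i) * sg (x j), fun _ _ => mul_comm _ _⟩

lemma edgeVal_eq {V : Type} {q a : ℝ} {W : Graphon}
    (hW : ∀ x y, W x y = q - a * (sg x * sg y)) (x : V → I) (e : Sym2 V) :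
    edgeVal W x e = -a * sv x e + q := by
  induction e using Sym2.ind with
  | _ i j =>
    show W (x i) (x j) = -a * (sg (x i) * sg (x j)) + q
    rw [hW]
    ring

open Classical in
lemma sv_eq_prod {V : Type} [Fintype V] (x : V → I) (e : Sym2 V) (he : ¬ e.IsDiag) :
    sv x e = ∏ v : V, (if v ∈ e then sg (x v) else 1) := by
  induction e using Sym2.ind with
  | _ i j =>
    have hij : i ≠ j := by simpa using he
    have h1 : ∏ v : V, (if v ∈ s(i, j) then sg (x v) else 1) =
        ∏ v ∈ ({i, j} : Finset V), sg (x v) := by
      rw [Finset.prod_ite, Finset.prod_const_one, mul_one]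
      refine Finset.prod_congr ?_ fun _ _ => rfl
      ext v
      simp
    rw [h1, Finset.prod_pair hij]
    rfl

open Classical in
/-- The product over a set of edges is the product over the vertices of powers of signs. -/
lemma prod_sv {V : Type} [Fintype V] (x : V → I) (A : Finset (Sym2 V))
    (hA : ∀ e ∈ A, ¬ e.IsDiag) :
    ∏ e ∈ A, sv x e = ∏ v : V, sg (x v) ^ (A.filter fun e => v ∈ e).card := by
  rw [Finset.prod_congr rfl fun e he => sv_eq_prod x e (hA e he), Finset.prod_comm]
  refine Finset.prod_congr rfl fun v _ => ?_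
  rw [Finset.prod_ite, Finset.prod_const_one, mul_one, Finset.prod_const]

lemma integral_sg_pow (n : ℕ) : ∫ x : I, sg x ^ n = if Even n then 1 else 0 := by
  have h2 : ∀ x : I, sg x ^ 2 = 1 := by
    intro x
    rcases sg_cases x with h | h <;> rw [h] <;> norm_num
  split_ifs with hn
  · obtain ⟨k, rfl⟩ := hn.exists_two_nsmul
    have : ∀ x : I, sg x ^ (2 • k) = 1 := by
      intro x
      rw [smul_eq_mul, pow_mul, h2, one_pow]
    simp only [this]
    simp
  · rw [Nat.not_even_iff_odd] at hn
    obtain ⟨k, rfl⟩ := hn
    have : ∀ x : I, sg x ^ (2 * k + 1) = sg x := by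
      intro x
      rw [pow_succ, pow_mul, h2, one_pow, one_mul]
    simp only [this]
    exact integral_sg

open Classical in
lemma integral_prod_sv {V : Type} [Fintype V] (A : Finset (Sym2 V))
    (hA : ∀ e ∈ A, ¬ e.IsDiag) :
    ∫ x : V → I, ∏ e ∈ A, sv x e =
      if (∀ v : V, Even (A.filter fun e => v ∈ e).card) then 1 else 0 := by
  have h1 : ∀ x : V → I, ∏ e ∈ A, sv x e =
      ∏ v : V, sg (x v) ^ (A.filter fun e => v ∈ e).card := fun x => prod_sv x A hA
  simp only [h1]
  have h2 := integral_fintype_prod_volume_eq_prod
    (fun (v : V) (s : I) => sg s ^ (A.filter fun e => v ∈ e).card)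
  rw [h2]
  simp only [integral_sg_pow]
  split_ifs with h
  · exact Finset.prod_eq_one fun v _ => if_pos (h v)
  · push Not at h
    obtain ⟨v, hv⟩ := h
    exact Finset.prod_eq_zero (Finset.mem_univ v) (if_neg hv)

lemma measurable_sv {V : Type} (e : Sym2 V) : Measurable (fun x : V → I => sv x e) := by
  induction e using Sym2.ind with
  | _ i j =>
    exact (measurable_sg.comp (measurable_pi_apply i)).mul
      (measurable_sg.comp (measurable_pi_apply j))

lemma abs_sv {V : Type} (x : V → I) (e : Sym2 V) : |sv x e| = 1 := by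
  induction e using Sym2.ind with
  | _ i j =>
    show |sg (x i) * sg (x j)| = 1
    rw [abs_mul, abs_sg, abs_sg, one_mul]

lemma integrable_prod_sv {V : Type} [Fintype V] (A : Finset (Sym2 V)) :
    Integrable (fun x : V → I => ∏ e ∈ A, sv x e) := by
  refine Integrable.of_bound (Finset.measurable_prod _ fun e _ =>
    measurable_sv e).aestronglyMeasurable 1 (Filter.Eventually.of_forall fun x => ?_)
  rw [Real.norm_eq_abs, Finset.abs_prod]
  simp [abs_sv]

end Twb

/-- Densities of the two-block graphon `q - a σ ⊗ σ`. -/
theorem t_twb : TWBStmt := by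
  intro V _ H q a W hW
  classical
  constructor
  · unfold mean
    have h1 : ∀ z : I × I, W z.1 z.2 = q - a * (sg z.1 * sg z.2) := fun z => hW z.1 z.2
    have hi : Integrable (fun z : I × I => sg z.1 * sg z.2) := by
      refine Integrable.of_bound ((Twb.measurable_sg.comp measurable_fst).mul
        (Twb.measurable_sg.comp measurable_snd)).aestronglyMeasurable 1
        (Filter.Eventually.of_forall fun z => ?_)
      rw [Real.norm_eq_abs, abs_mul, Twb.abs_sg, Twb.abs_sg, one_mul]
    simp only [h1]
    rw [integral_sub (integrable_const _) (hi.const_mul _), integral_const_mul]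
    have h2 : ∫ z : I × I, sg z.1 * sg z.2 = (∫ x : I, sg x) * ∫ y : I, sg y :=
      integral_prod_mul (μ := (volume : Measure I)) (ν := (volume : Measure I)) sg sg
    rw [h2, Twb.integral_sg]
    simp
  · have hd : ∀ A ∈ (edges H).powerset, ∀ e ∈ A, ¬ e.IsDiag := by
      intro A hA e he
      have h1 : e ∈ edges H := Finset.mem_powerset.1 hA he
      unfold edges at h1
      rw [SimpleGraph.mem_edgeFinset] at h1
      exact H.not_isDiag_of_mem_edgeSet h1
    have hpt : ∀ x : V → I, ∏ e ∈ edges H, edgeVal W x e =
        ∑ A ∈ (edges H).powerset,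
          (q ^ (numEdges H - A.card) * (-a) ^ A.card) * ∏ e ∈ A, Twb.sv x e := by
      intro x
      rw [Finset.prod_congr rfl fun e _ => Twb.edgeVal_eq hW x e, Finset.prod_add]
      refine Finset.sum_congr rfl fun A hA => ?_
      rw [Finset.prod_mul_distrib, Finset.prod_const, Finset.prod_const,
        Finset.card_sdiff_of_subset (Finset.mem_powerset.1 hA), numEdges_eq]
      ring
    have h0 : homDensity H W = ∫ x : V → I, ∏ e ∈ edges H, edgeVal W x e := rfl
    rw [h0]
    simp only [hpt]
    rw [integral_finsetSum _ fun A _ => (Twb.integrable_prod_sv A).const_mul _]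
    unfold evens
    rw [Finset.sum_filter]
    refine Finset.sum_congr ?_ fun A hA => ?_
    · ext A
      simp only [Finset.mem_powerset]
    rw [integral_const_mul, Twb.integral_prod_sv A (hd A hA)]
    by_cases hE : ∀ v : V, Even (A.filter fun e => v ∈ e).card
    · rw [if_pos hE, if_pos ?_, mul_one]
      intro v
      have := hE v
      convert this
    · rw [if_neg hE, if_neg ?_, mul_zero]
      intro h
      refine hE fun v => ?_
      have := h v
      convert this

end Pool.FOT
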